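import Pool.Agent.Run7.h115.HK.Iface

/-!
# Piece K2: the heat flow from the semigroup
-/

open MeasureTheory Filter Topology Set
open scoped ENNReal
open Pool.Agent.N288.MM

namespace Run7.h593.HK

open Run7.h115.HK

noncomputable section

theorem der_congr {w f g f' g' : ℝ → ℝ} (hw : Weight w) (h : Der w f g)
    (hf : ∀ᵐ x, f x = f' x) (hg : ∀ᵐ x, g x = g' x) : Der w f' g' := by
  obtain ⟨a, b, F, hF, hd⟩ := h.congr hw hg
  have hf' := (ae_iff_vol hw).2 hf
  refine ⟨a.ae_eq hf', b, F, ⟨hF.1, hF.2.congr fun n => ?_⟩, hd⟩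
  refine eLpNorm_congr_ae ?_
  filter_upwards [hf'] with x hx
  rw [hx]

theorem toC_coe {w f : ℝ → ℝ} (hf : MemLp f 2 (mu w)) :
    ∀ᵐ x ∂(mu w), (toC hf : H2 w) x = ((f x : ℝ) : ℂ) := (hf.ofReal (K := ℂ)).coeFn_toLp

theorem re_le {w : ℝ → ℝ} (G : H2 w) :
    eLpNorm (fun x => (G x).re) 2 (mu w) ≤ ENNReal.ofReal ‖G‖ := by
  rw [Lp.norm_def, ENNReal.ofReal_toReal (Lp.eLpNorm_ne_top G)]
  refine eLpNorm_mono fun x => ?_
  rw [Real.norm_eq_abs]
  exact Complex.abs_re_le_norm _

theorem re_memLp {w : ℝ → ℝ} (G : H2 w) : MemLp (fun x => (G x).re) 2 (mu w) :=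
  (Lp.memLp G).re

theorem im_memLp {w : ℝ → ℝ} (G : H2 w) : MemLp (fun x => (G x).im) 2 (mu w) :=
  (Lp.memLp G).im

theorem inner_re {w φ : ℝ → ℝ} (hφ : MemLp φ 2 (mu w)) (G : H2 w) :
    (inner ℂ (toC hφ : H2 w) G).re = ∫ x, φ x * (G x).re ∂(mu w) := by
  rw [L2.inner_def]
  have h1 := L2.integrable_inner (𝕜 := ℂ) (toC hφ : H2 w) G
  have h2 := integral_re (𝕜 := ℂ) h1
  have h3 : (∫ a, inner ℂ ((toC hφ : H2 w) a) (G a) ∂(mu w)).re =
      ∫ a, RCLike.re (inner ℂ ((toC hφ : H2 w) a) (G a)) ∂(mu w) := h2.symm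
  rw [h3]
  refine integral_congr_ae ?_
  filter_upwards [toC_coe hφ] with x hx
  rw [hx]
  simp [mul_comm]

/-- convergence of the real parts -/
theorem re_tendsto {w : ℝ → ℝ} {l : Filter ℝ} {G : ℝ → H2 w} {f : ℝ → ℝ → ℝ}
    (h0 : Tendsto (fun t => ‖G t‖) l (𝓝 0))
    (hf : ∀ᶠ t in l, ∀ᵐ x ∂(mu w), f t x = (G t x).re) :
    Tendsto (fun t => eLpNorm (f t) 2 (mu w)) l (𝓝 0) := by
  have h1 : Tendsto (fun t => ENNReal.ofReal ‖G t‖) l (𝓝 0) := by
    have := ENNReal.tendsto_ofReal h0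
    rwa [ENNReal.ofReal_zero] at this
  refine tendsto_of_tendsto_of_tendsto_of_le_of_le' tendsto_const_nhds h1
    (Eventually.of_forall fun _ => bot_le) ?_
  filter_upwards [hf] with t ht
  rw [eLpNorm_congr_ae ht]
  exact re_le _

theorem t_K2 : S_K2 := by
  intro w hw V hV J hJ P P' v hS e he f hf
  set F : H2 w := toC hf with hF
  -- the representative
  have hrep : ∀ t, 0 < t → ∀ᵐ x ∂(mu w), e x (v t F) = (P t F) x := by
    intro t ht
    have h1 := (ae_iff_vol hw).2 (he (v t F))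
    have h2 : ((v t F : V) : HH w).fst = P t F := by rw [← hJ, hS.fac t ht]
    filter_upwards [h1] with x hx
    rw [hx, h2]
  -- the derivative of the flow in space
  have hder : ∀ t, 0 < t → Der w (fun x => (e x (v t F)).re)
      (fun x => (((v t F : V) : HH w).snd x).re) := by
    intro t ht
    have h1 := ((hV (v t F : HH w)).1 (v t F).2).1
    refine der_congr hw h1 ?_ (Eventually.of_forall fun x => rfl)
    filter_upwards [he (v t F)] with x hx
    rw [hx]
  refine ⟨?_, ?_, ?_⟩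
  · intro t ht
    have h1 := hder t ht
    refine ⟨h1.1, ?_⟩
    rw [h1.Cw_eq hw]
    exact half_lt_top (Q_lt_top h1.2.1)
  · refine re_tendsto (G := fun t => P t F - F) ?_ ?_
    · have := tendsto_iff_norm_sub_tendsto_zero.1 (hS.zero F)
      exact this
    · filter_upwards [self_mem_nhdsWithin] with t ht
      filter_upwards [hrep t ht, Lp.coeFn_sub (P t F) F, toC_coe hf] with x h1 h2 h3
      rw [h2, h1, Pi.sub_apply, Complex.sub_re, h3, Complex.ofReal_re]
  · intro t ht
    refine ⟨fun x => ((P' t F) x).re, re_memLp _, ?_, ?_⟩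
    · have hd : HasDerivAt (fun s => P s F) (P' t F) t := by
        exact ((ContinuousLinearMap.apply ℂ (H2 w) F).restrictScalars ℝ).hasFDerivAt.comp_hasDerivAt
          t (hS.der t ht)
      rw [hasDerivAt_iff_tendsto_slope_zero] at hd
      have hpos : ∀ᶠ r : ℝ in 𝓝[≠] 0, 0 < t + r := by
        have : Tendsto (fun r : ℝ => t + r) (𝓝 0) (𝓝 (t + 0)) :=
          tendsto_const_nhds.add tendsto_id
        rw [add_zero] at this
        exact (this.eventually (lt_mem_nhds ht)).filter_mono nhdsWithin_le_nhds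
      refine re_tendsto (G := fun r : ℝ => r⁻¹ • (P (t + r) F - P t F) - P' t F)
        (tendsto_iff_norm_sub_tendsto_zero.1 hd) ?_
      filter_upwards [hpos] with r hr
      filter_upwards [hrep t ht, hrep (t + r) hr,
        Lp.coeFn_sub (r⁻¹ • (P (t + r) F - P t F)) (P' t F),
        Lp.coeFn_smul r⁻¹ (P (t + r) F - P t F), Lp.coeFn_sub (P (t + r) F) (P t F)]
        with x h1 h2 h3 h4 h5
      rw [h3, Pi.sub_apply, h4, Pi.smul_apply, h5, Pi.sub_apply, h1, h2, Complex.sub_re,
        Complex.real_smul, Complex.re_ofReal_mul, Complex.sub_re, div_eq_inv_mul]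
    · intro φ hφ hC
      obtain ⟨θ, hθ, -⟩ := der_of_fin hw hφ hC
      rw [pair_eq hw (hder t ht) hθ]
      -- the pair in the Sobolev space
      set z : HH w := WithLp.toLp 2 ((toC hφ : H2 w), (toC hθ.2.1 : H2 w)) with hz
      have z1 : z.fst = toC hφ := rfl
      have z2 : z.snd = toC hθ.2.1 := rfl
      have hzV : z ∈ V := by
        rw [hV, z1, z2]
        have h0 : Der w (fun x => 0 * φ x) (fun x => 0 * θ x) := hθ.smul hw 0
        have a1 := (ae_iff_vol hw).1 (toC_coe hφ)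
        have a2 := (ae_iff_vol hw).1 (toC_coe hθ.2.1)
        refine ⟨der_congr hw hθ ?_ ?_, der_congr hw h0 ?_ ?_⟩
        · filter_upwards [a1] with x hx
          rw [hx, Complex.ofReal_re]
        · filter_upwards [a2] with x hx
          rw [hx, Complex.ofReal_re]
        · filter_upwards [a1] with x hx
          rw [hx, Complex.ofReal_im, zero_mul]
        · filter_upwards [a2] with x hx
          rw [hx, Complex.ofReal_im, zero_mul]
      have hw1 := hS.weak t ht F ⟨z, hzV⟩
      have hJz : J ⟨z, hzV⟩ = toC hφ := hJ _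
      rw [hJz, Submodule.coe_inner, WithLp.prod_inner_apply] at hw1
      have h2 : ((v t F : V) : HH w).fst = P t F := by rw [← hJ, hS.fac t ht]
      have h3 : inner ℂ (z.fst) (((v t F : V) : HH w).fst) +
          inner ℂ (z.snd) (((v t F : V) : HH w).snd) - inner ℂ (toC hφ : H2 w) (P t F) =
          -inner ℂ (toC hφ : H2 w) (P' t F) := hw1
      rw [h2, z1, z2, add_sub_cancel_left] at h3
      have h4 := congrArg Complex.re h3
      rw [Complex.neg_re, inner_re, inner_re] at h4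
      have h5 : ∫ x, ((P' t F) x).re * φ x ∂(mu w) = ∫ x, φ x * ((P' t F) x).re ∂(mu w) := by
        simp only [mul_comm]
      have h6 : ∫ x, (((v t F : V) : HH w).snd x).re * θ x ∂(mu w) =
          ∫ x, θ x * (((v t F : V) : HH w).snd x).re ∂(mu w) := by
        simp only [mul_comm]
      rw [h5, h6, h4, neg_neg]

end

end Run7.h593.HK
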