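import Pool.Agent.Run7.h115.HK.Iface

/-!
# Pieces N2, N3: contraction of the heat flow, evolution of a pairing along the heat flow
-/

open MeasureTheory Filter Topology Set
open scoped ENNReal
open Pool.Agent.N288.MM

namespace Run7.h593.HK

open Run7.h115.HK

noncomputable section

/-- the class of a function in `L²` (zero if it is not in `L²`) -/
def cl (μ : Measure ℝ) (f : ℝ → ℝ) : Lp ℝ 2 μ :=
  open Classical in if h : MemLp f 2 μ then h.toLp f else 0

theorem cl_eq {μ : Measure ℝ} {f : ℝ → ℝ} (h : MemLp f 2 μ) : cl μ f = h.toLp f := dif_pos h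

theorem cl_norm {μ : Measure ℝ} {f : ℝ → ℝ} (h : MemLp f 2 μ) :
    ‖cl μ f‖ = (eLpNorm f 2 μ).toReal := by
  rw [cl_eq h, Lp.norm_toLp]

theorem cl_inner {μ : Measure ℝ} {f g : ℝ → ℝ} (hf : MemLp f 2 μ) (hg : MemLp g 2 μ) :
    inner ℝ (cl μ f) (cl μ g) = ∫ x, f x * g x ∂μ := by
  rw [cl_eq hf, cl_eq hg, L2.inner_def]
  refine integral_congr_ae ?_
  filter_upwards [hf.coeFn_toLp, hg.coeFn_toLp] with x h1 h2
  rw [h1, h2]
  simp [mul_comm]

theorem cl_sub {μ : Measure ℝ} {f g : ℝ → ℝ} (hf : MemLp f 2 μ) (hg : MemLp g 2 μ) :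
    cl μ f - cl μ g = cl μ (fun x => f x - g x) := by
  rw [cl_eq hf, cl_eq hg, ← MemLp.toLp_sub hf hg]
  exact (cl_eq (hf.sub hg)).symm

theorem cl_smul {μ : Measure ℝ} {f : ℝ → ℝ} (c : ℝ) (hf : MemLp f 2 μ) :
    c • cl μ f = cl μ (fun x => c * f x) := by
  rw [cl_eq hf, ← MemLp.toLp_const_smul]
  exact (cl_eq (hf.const_smul c)).symm

/-- convergence in `L²` -/
theorem cl_tendsto {ι : Type*} {l : Filter ι} {μ : Measure ℝ} {F : ι → ℝ → ℝ} {g : ℝ → ℝ}
    (hF : ∀ᶠ i in l, MemLp (F i) 2 μ) (hg : MemLp g 2 μ)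
    (h : Tendsto (fun i => eLpNorm (fun x => F i x - g x) 2 μ) l (𝓝 0)) :
    Tendsto (fun i => cl μ (F i)) l (𝓝 (cl μ g)) := by
  rw [tendsto_iff_norm_sub_tendsto_zero]
  have h1 : Tendsto (fun i => (eLpNorm (fun x => F i x - g x) 2 μ).toReal) l (𝓝 0) := by
    have := (ENNReal.tendsto_toReal ENNReal.zero_ne_top).comp h
    simpa [Function.comp_def] using this
  refine h1.congr' ?_
  filter_upwards [hF] with i hi
  rw [cl_sub hi hg]
  exact (cl_norm (f := fun x => F i x - g x) (hi.sub hg)).symm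

variable {w : ℝ → ℝ} {f : ℝ → ℝ} {u : ℝ → ℝ → ℝ}

theorem flow_init (hf : MemLp f 2 (mu w)) (hu : FlowW w f u) :
    Tendsto (fun t => cl (mu w) (u t)) (𝓝[>] 0) (𝓝 (cl (mu w) f)) := by
  refine cl_tendsto ?_ hf hu.init
  filter_upwards [self_mem_nhdsWithin] with t ht
  exact (hu.mem t ht).1

theorem flow_deriv (hu : FlowW w f u) {t : ℝ} (ht : 0 < t) {v : ℝ → ℝ} (hv : MemLp v 2 (mu w))
    (h : Tendsto (fun h : ℝ => eLpNorm (fun x => (u (t + h) x - u t x) / h - v x) 2 (mu w)) (𝓝[≠] 0)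
      (𝓝 0)) : HasDerivAt (fun t => cl (mu w) (u t)) (cl (mu w) v) t := by
  rw [hasDerivAt_iff_tendsto_slope_zero]
  have hpos : ∀ᶠ r : ℝ in 𝓝[≠] 0, 0 < t + r := by
    have : Tendsto (fun r : ℝ => t + r) (𝓝 0) (𝓝 (t + 0)) := tendsto_const_nhds.add tendsto_id
    rw [add_zero] at this
    exact (this.eventually (lt_mem_nhds ht)).filter_mono nhdsWithin_le_nhds
  have h0 := (hu.mem t ht).1
  have h1 : ∀ᶠ r : ℝ in 𝓝[≠] 0, MemLp (fun x => (u (t + r) x - u t x) / r) 2 (mu w) := by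
    filter_upwards [hpos] with r hr
    have h2 := ((hu.mem (t + r) hr).1.sub h0).const_mul r⁻¹
    refine (memLp_congr_ae (Eventually.of_forall fun x => ?_)).1 h2
    simp only [Pi.sub_apply]
    rw [div_eq_inv_mul]
  refine (cl_tendsto h1 hv h).congr' ?_
  filter_upwards [hpos] with r hr
  have h2 := (hu.mem (t + r) hr).1
  rw [cl_sub h2 h0, cl_smul (f := fun x => u (t + r) x - u t x) r⁻¹ (h2.sub h0)]
  congr 1
  funext x
  rw [div_eq_inv_mul]

theorem flow_cont (hu : FlowW w f u) : ContinuousOn (fun t => cl (mu w) (u t)) (Ioi 0) := by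
  intro t ht
  obtain ⟨v, hv, h, -⟩ := hu.deriv t ht
  exact (flow_deriv hu ht hv h).continuousAt.continuousWithinAt

theorem norm_le (hw : Weight w) (hf : MemLp f 2 (mu w)) (hu : FlowW w f u) {t : ℝ} (ht : 0 < t) :
    ‖cl (mu w) (u t)‖ ≤ ‖cl (mu w) f‖ := by
  set n : ℝ → ℝ := fun t => ‖cl (mu w) (u t)‖ ^ 2 with hn
  have hd : ∀ s, 0 < s → ∃ d, d ≤ 0 ∧ HasDerivAt n d s := by
    intro s hs
    obtain ⟨v, hv, h, hp⟩ := hu.deriv s hs
    have h1 := flow_deriv hu hs hv h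
    have h2 := h1.norm_sq
    refine ⟨_, ?_, h2⟩
    obtain ⟨hm, hC⟩ := hu.mem s hs
    obtain ⟨g, hg, -⟩ := der_of_fin hw hm hC
    have h3 := hp (u s) hm hC
    rw [pair_eq hw hg hg] at h3
    have h4 : inner ℝ (cl (mu w) (u s)) (cl (mu w) v) = ∫ x, v x * u s x ∂(mu w) := by
      rw [cl_inner hm hv]
      simp only [mul_comm]
    rw [h4, h3]
    have h5 : 0 ≤ ∫ x, g x * g x ∂(mu w) := integral_nonneg fun x => mul_self_nonneg _
    linarith
  have hanti : AntitoneOn n (Ioi 0) := by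
    refine antitoneOn_of_deriv_nonpos (convex_Ioi 0) ?_ ?_ ?_
    · intro s hs
      obtain ⟨d, -, h⟩ := hd s hs
      exact h.continuousAt.continuousWithinAt
    · intro s hs
      rw [interior_Ioi] at hs
      obtain ⟨d, -, h⟩ := hd s hs
      exact h.differentiableAt.differentiableWithinAt
    · intro s hs
      rw [interior_Ioi] at hs
      obtain ⟨d, h0, h⟩ := hd s hs
      rw [h.deriv]
      exact h0
  have hlim : Tendsto n (𝓝[>] 0) (𝓝 (‖cl (mu w) f‖ ^ 2)) := ((flow_init hf hu).norm).pow 2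
  have h6 : n t ≤ ‖cl (mu w) f‖ ^ 2 := by
    refine ge_of_tendsto hlim ?_
    filter_upwards [Ioo_mem_nhdsGT ht] with s hs
    exact hanti hs.1 ht hs.2.le
  exact le_of_sq_le_sq h6 (norm_nonneg _)

theorem t_N2 : S_N2 := by
  intro w hw f u hf hu t ht
  have h := norm_le hw hf hu ht
  rw [cl_norm (hu.mem t ht).1, cl_norm hf] at h
  exact (ENNReal.toReal_le_toReal (hu.mem t ht).1.2.ne hf.2.ne).1 h

theorem t_N3 : S_N3 := by
  intro w hw f u hf hu φ θ D hφ hD hlap
  have hφm : MemLp φ 2 (mu w) := hφ.1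
  have e1 : ∀ r, 0 < r → inner ℝ (cl (mu w) (u r)) (cl (mu w) D) = ∫ x, u r x * D x ∂(mu w) :=
    fun r hr => cl_inner (hu.mem r hr).1 hD
  have c1 : ContinuousOn (fun r : ℝ => ∫ x, u r x * D x ∂(mu w)) (Ioi 0) := by
    refine ContinuousOn.congr (f := fun r => inner ℝ (cl (mu w) (u r)) (cl (mu w) D)) ?_ ?_
    · exact (flow_cont hu).inner continuousOn_const
    · intro r hr
      exact (e1 r hr).symm
  have c2 : Tendsto (fun r : ℝ => ∫ x, u r x * D x ∂(mu w)) (𝓝[>] 0)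
      (𝓝 (∫ x, f x * D x ∂(mu w))) := by
    rw [← cl_inner hf hD]
    refine Tendsto.congr' ?_ ((flow_init hf hu).inner tendsto_const_nhds)
    filter_upwards [self_mem_nhdsWithin] with r hr
    exact e1 r hr
  refine ⟨c1, c2, fun t ht => ?_⟩
  -- the derivative of the pairing
  have hd : ∀ r, 0 < r → HasDerivAt (fun r => ∫ x, u r x * φ x ∂(mu w))
      (∫ x, u r x * D x ∂(mu w)) r := by
    intro r hr
    obtain ⟨v, hv, h, hp⟩ := hu.deriv r hr
    have h1 := flow_deriv hu hr hv h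
    have h2 : HasDerivAt (fun r => inner ℝ (cl (mu w) (u r)) (cl (mu w) φ))
        (inner ℝ (cl (mu w) v) (cl (mu w) φ)) r := by
      have := h1.inner ℝ (hasDerivAt_const r (cl (mu w) φ))
      simpa using this
    obtain ⟨hm, hC⟩ := hu.mem r hr
    obtain ⟨g, hg, -⟩ := der_of_fin hw hm hC
    have hCφ : Cw w φ < ∞ := by
      rw [hφ.Cw_eq hw]
      exact half_lt_top (Q_lt_top hφ.2.1)
    have h3 := hp φ hφm hCφ
    rw [pair_eq hw hg hφ] at h3
    have h4 := hlap (u r) g hg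
    have h5 : inner ℝ (cl (mu w) v) (cl (mu w) φ) = ∫ x, u r x * D x ∂(mu w) := by
      rw [cl_inner hv hφm, h3, h4, neg_neg]
    rw [h5] at h2
    refine h2.congr_of_eventuallyEq ?_
    filter_upwards [lt_mem_nhds hr] with s hs
    exact (cl_inner (hu.mem s hs).1 hφm).symm
  have hint : IntervalIntegrable (fun r : ℝ => ∫ x, u r x * D x ∂(mu w)) volume 0 t := by
    rw [intervalIntegrable_iff_integrableOn_Ioc_of_le ht.le]
    refine Integrable.mono' (g := fun _ => ‖cl (mu w) f‖ * ‖cl (mu w) D‖) (integrable_const _)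
      ?_ ?_
    · exact (c1.mono fun x hx => hx.1).aestronglyMeasurable measurableSet_Ioc
    · refine (ae_restrict_iff' measurableSet_Ioc).2 (Eventually.of_forall fun r hr => ?_)
      rw [← e1 r hr.1, Real.norm_eq_abs]
      refine (abs_real_inner_le_norm _ _).trans ?_
      have := norm_le hw hf hu hr.1
      gcongr
  have l0 : Tendsto (fun r => ∫ x, u r x * φ x ∂(mu w)) (𝓝[>] 0) (𝓝 (∫ x, f x * φ x ∂(mu w))) := by
    rw [← cl_inner hf hφm]
    refine Tendsto.congr' ?_ ((flow_init hf hu).inner tendsto_const_nhds)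
    filter_upwards [self_mem_nhdsWithin] with r hr
    exact cl_inner (hu.mem r hr).1 hφm
  have l1 : Tendsto (fun r => ∫ x, u r x * φ x ∂(mu w)) (𝓝[<] t)
      (𝓝 (∫ x, u t x * φ x ∂(mu w))) :=
    ((hd t ht).continuousAt.tendsto).mono_left nhdsWithin_le_nhds
  exact (intervalIntegral.integral_eq_sub_of_hasDerivAt_of_tendsto ht
    (fun r hr => hd r hr.1) hint l0 l1).symm

end

end Run7.h593.HK
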